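import Pool.Agent.Y669.TA.GrigTh

/-! The elementary theory of the Grigorchuk group is not arithmetical: every arithmetical set of
natural numbers is many-one reducible to it. Stronger form of `Undecidable`. -/

namespace Pool.Agent.Results.MP_68c508_lc.NotArithmetical

open Pool.Agent.Helper180.Defs Pool.Agent.Helper180.Grig Pool.Agent.Y669.TA

/-- Every arithmetical set of natural numbers is many-one reducible to the elementary theory of the
Grigorchuk group (the set of the Goedel numbers of the sentences that are true in it); so this
theory is not decidable and not even arithmetical. -/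
theorem result :
    (∀ A : ℕ → Prop, Arithmetical A → A ≤₀ fun n : ℕ => ∃ φ ∈ theoryGr, φ.code = n) ∧
    ¬ Arithmetical (fun n : ℕ => ∃ φ ∈ theoryGr, φ.code = n) ∧
    ¬ IsDecidable theoryGr :=
  ⟨fun _ hA => GrigTh.reducible hA, not_arithmetical fun _ hA => GrigTh.reducible hA,
    fun h => not_arithmetical (fun _ hA => GrigTh.reducible hA) (.comp _ h)⟩

end Pool.Agent.Results.MP_68c508_lc.NotArithmetical
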